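import Pool.Agent.Y578.OL.Unary

/-!
# Light outerplane Laman graphs: all numbers in unary, the reduction
-/

namespace Pool.Agent.Y578.OL

open Pool.Agent.NPC Pool.Agent.NPC.R671 Pool.Agent.H883R2.OL

/-- Removing repetitions. -/
theorem poly_dedup {α β : Type} [TEnc α] [TEnc β] [DecidableEq β] {l : α → List β} (hl : Poly l) :
    Poly (fun a => (l a).dedup) := by
  obtain ⟨r, hr⟩ := hl.sz_le
  have key : ∀ l : List β, l.foldr (fun b s => if b ∈ s then s else b :: s) [] = l.dedup := by
    intro l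
    induction l with
    | nil => rfl
    | cons b l ih =>
      rw [List.foldr_cons, ih]
      by_cases h : b ∈ l
      · rw [List.dedup_cons_of_mem h, if_pos (List.mem_dedup.2 h)]
      · rw [List.dedup_cons_of_notMem h, if_neg (fun h' => h (List.mem_dedup.1 h'))]
  have hsz : ∀ l : List β, sz (l.dedup) ≤ sz l := by
    intro l
    induction l with
    | nil => simp
    | cons b l ih =>
      by_cases h : b ∈ l
      · rw [List.dedup_cons_of_mem h, sz_list_cons]
        omega
      · rw [List.dedup_cons_of_notMem h, sz_list_cons, sz_list_cons]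
        omega
  refine (NPC.Poly.foldr (s := fun _ => [])
    (F := fun _ b (s : List β) => if b ∈ s then s else b :: s)
    hl (NPC.Poly.const _) ?_ r ?_).congr fun a => key _
  · exact NPC.Poly.ite (p := fun p : α × β × List β => p.2.1 ∈ p.2.2)
      (NPC.Poly.decide_mem (NPC.Poly.fst (NPC.Poly.snd NPC.Poly.id))
        (NPC.Poly.snd (NPC.Poly.snd NPC.Poly.id)))
      (NPC.Poly.snd (NPC.Poly.snd NPC.Poly.id)) (NPC.Poly.cons
      (NPC.Poly.fst (NPC.Poly.snd NPC.Poly.id)) (NPC.Poly.snd (NPC.Poly.snd NPC.Poly.id)))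
  · intro a k _
    rw [key]
    exact (hsz _).trans ((Poly.sz_drop_le _ _).trans (hr a))

theorem instU_poly : Poly instU := by
  have e1 : UPoly (fun p : Fm × (ℕ × ℕ) => min p.2.1 (cB p.1)) :=
    UPoly.of_le (n := fun p : Fm × (ℕ × ℕ) => cB p.1)
      (Poly.min (Poly.fst (Poly.snd Poly.id)) (cBu.toPoly.comp (Poly.fst Poly.id)))
      (cBu.comp (Poly.fst Poly.id)) (fun p => Nat.min_le_right _ _)
  have e2 : UPoly (fun p : Fm × (ℕ × ℕ) => min p.2.2 (cB p.1)) :=
    UPoly.of_le (n := fun p : Fm × (ℕ × ℕ) => cB p.1)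
      (Poly.min (Poly.snd (Poly.snd Poly.id)) (cBu.toPoly.comp (Poly.fst Poly.id)))
      (cBu.comp (Poly.fst Poly.id)) (fun p => Nat.min_le_right _ _)
  unfold instU
  refine Poly.pair ?_ rthru
  refine (NPC.Poly.map (F := fun (φ : Fm) (q : ℕ × ℕ) => (List.replicate (min q.1 (cB φ)) (),
      List.replicate (min q.2 (cB φ)) ())) (poly_dedup ptsN_poly)
      (Poly.pair e1 e2)).congr fun φ => ?_
  refine List.map_congr_left fun q hq => ?_
  have h := ptsN_le (List.mem_dedup.1 hq)
  rw [Nat.min_eq_left h.1, Nat.min_eq_left h.2]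

theorem instU_distinct (φ : Fm) : Distinct (instU φ) := by
  unfold Distinct instU
  refine List.Nodup.map ?_ (List.nodup_dedup _)
  rintro ⟨a, b⟩ ⟨c, d⟩ h
  have h1 := congrArg (fun z : List Unit × List Unit => z.1.length) h
  have h2 := congrArg (fun z : List Unit × List Unit => z.2.length) h
  simp only [List.length_replicate] at h1 h2
  rw [h1, h2]

theorem numbers_instU (φ : Fm) : numbers (instU φ) =
    ((ptsN φ).dedup.map (fun q => ((q.1 : ℤ), (q.2 : ℤ))), (rthr φ : ℤ)) := by
  unfold instU numbers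
  simp only [List.map_map, List.length_replicate]
  congr 1
  refine List.map_congr_left fun x _ => ?_
  simp

theorem toFinset_eq (φ : Fm) : (numbers (instU φ)).1.toFinset = (rpts φ).toFinset := by
  rw [numbers_instU, rpts_eq]
  ext p
  simp only [List.mem_toFinset, List.mem_map, List.mem_dedup]

/-- The decision problem with all numbers in unary is hard, provided the layout is correct. -/
theorem npHardOn_of_equiv
    (hE : ∀ (K m : ℕ) (inc : ℕ → ℕ → Bool), 2 ≤ K → K % 2 = 0 → 1 ≤ m → ∀ N : ℕ,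
      N = 100 * ((K + 6 * m + 4) * (5 * K)) →
      ((∃ σ, Sats K m inc σ) ↔ ∃ E, OuterplaneLaman (pts N (kd K m inc) (cells K m inc)) E ∧
        weight E ≤ (thr N (kd K m inc) (cells K m inc) : ℝ))) :
    NPHardOn Distinct MinLamanUnary := by
  refine toNPHardOn (hardPr_BSat.trans (Pr' := Distinct) instU_poly
    (fun φ _ => instU_distinct φ) ?_)
  rintro φ ⟨h1, h2⟩
  rw [bsat_iff, hE (rK φ) (rm φ) (rinc φ) (by unfold rK; omega) (by unfold rK; omega)
    (List.length_pos_iff.2 h1) (rN φ) rfl]
  unfold MinLamanUnary MinLaman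
  rw [toFinset_eq, rpts_toFinset, numbers_instU, ← rthr_eq, Int.cast_natCast]

end Pool.Agent.Y578.OL
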