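import Pool.Agent.H883R2.OL.Red

/-!
# Light outerplane Laman graphs: all numbers in unary
-/

namespace Pool.Agent.Y578.OL

open Pool.Agent.NPC Pool.Agent.NPC.R671 Pool.Agent.H883R2.OL

/-- An instance with all numbers in unary: a point is given by two lists of units, whose lengths are
its (natural) coordinates; the bound is the length of the last list. -/
abbrev UInst := List (List Unit × List Unit) × List Unit

/-- The instance in numbers. -/
def numbers (x : UInst) : List Pt × ℤ :=
  (x.1.map (fun p => ((p.1.length : ℤ), (p.2.length : ℤ))), (x.2.length : ℤ))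

/-- The decision problem for minimum-weight outerplane Laman graphs, all numbers (the coordinates,
which are natural numbers here, and the bound) being written in unary. -/
def MinLamanUnary (x : UInst) : Prop := MinLaman (numbers x)

/-- The points are pairwise different. -/
def Distinct (x : UInst) : Prop := x.1.Nodup

/-- The problem `P` is `NP`-hard even when it is restricted to the instances with the property
`D`: every language in `NP` reduces to it by a polynomial-time many-one reduction all of whose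
values are (encodings of) instances with the property `D`. -/
def NPHardOn {α : Type} [TEnc α] (D P : α → Prop) : Prop :=
  ∀ L : Set (List Bool), InNP L → ∃ f : List Bool → List Bool, PolyTime f ∧
    ∀ x, ∃ a : α, f x = bits a ∧ D a ∧ (x ∈ L ↔ P a)

theorem toNPHardOn {α : Type} [TEnc α] {D P : α → Prop} (hP : HardPr D P) : NPHardOn D P := by
  intro L hL
  obtain ⟨f, hf, hfD, hfL⟩ := hP L hL
  exact ⟨fun x => bits (f x), PC.toPolyTime hf, fun x => ⟨f x, rfl, hfD x, hfL x⟩⟩

/-- The points with natural coordinates. -/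
def ptsN (φ : Fm) : List (ℕ × ℕ) :=
  (rcells φ).flatMap (fun p => (offs (rkd φ p)).map
    (fun o => (rN φ * p.1 + o.1, rN φ * p.2 + o.2)))

theorem rpts_eq (φ : Fm) : rpts φ = (ptsN φ).map (fun q => ((q.1 : ℤ), (q.2 : ℤ))) := by
  unfold rpts ptsN
  rw [List.map_flatMap]
  simp only [List.map_map]
  rfl

theorem offs_le {k : ℕ} {o : ℕ × ℕ} (h : o ∈ offs k) : o.1 ≤ 2 ∧ o.2 ≤ 2 := by
  unfold offs at h
  split_ifs at h <;> simp only [List.mem_cons, List.not_mem_nil, or_false] at h
  all_goals (first | (rcases h with rfl | rfl | rfl | rfl <;> simp) |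
    (rcases h with rfl | rfl | rfl <;> simp) | (rcases h with rfl | rfl <;> simp) |
    (subst h; simp) | exact absurd h id)

theorem cells_lt {φ : Fm} {p : ℕ × ℕ} (h : p ∈ rcells φ) :
    p.1 < rK φ + 6 * rm φ + 4 ∧ p.2 < 5 * rK φ := by
  unfold rcells at h
  rw [List.mem_filter] at h
  obtain ⟨a, b⟩ := p
  have h1 := (@List.pair_mem_product ℕ ℕ (List.range (rK φ + 6 * rm φ + 4))
      (List.range (5 * rK φ)) a b).1 h.1
  rw [List.mem_range, List.mem_range] at h1
  exact h1

/-- A bound for the coordinates. -/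
def cB (φ : Fm) : ℕ := rN φ * (rK φ + 6 * rm φ + 4) + rN φ * (5 * rK φ) + 2

theorem ptsN_le {φ : Fm} {q : ℕ × ℕ} (h : q ∈ ptsN φ) : q.1 ≤ cB φ ∧ q.2 ≤ cB φ := by
  unfold ptsN at h
  rw [List.mem_flatMap] at h
  obtain ⟨p, hp, h⟩ := h
  rw [List.mem_map] at h
  obtain ⟨o, ho, rfl⟩ := h
  have h1 := cells_lt hp
  have h2 := offs_le ho
  have h3 := Nat.mul_le_mul_left (rN φ) h1.1.le
  have h4 := Nat.mul_le_mul_left (rN φ) h1.2.le
  unfold cB
  simp only
  omega

/-- The number of cells of the grid. -/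
def gB (φ : Fm) : ℕ := (rK φ + 6 * rm φ + 4) * (5 * rK φ)

theorem rcells_length (φ : Fm) : (rcells φ).length ≤ gB φ := by
  unfold rcells gB
  refine (List.length_filter_le _ _).trans ?_
  rw [List.length_product, List.length_range, List.length_range]

theorem sum_le (l : List (ℕ × ℕ)) (f : ℕ × ℕ → ℕ) (c : ℕ) (h : ∀ p, f p ≤ c) :
    (l.map f).sum ≤ l.length * c := by
  induction l with
  | nil => simp
  | cons a l ih =>
    simp only [List.map_cons, List.sum_cons, List.length_cons, Nat.succ_mul]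
    have := h a
    omega

theorem rthr_le (φ : Fm) : rthr φ ≤ gB φ * 3 * (rN φ + 3) + 3 * (gB φ * 5) := by
  unfold rthr
  have h1 := sum_le (rcells φ) (fun p => if 6 ≤ rkd φ p then 2 else 3) 3
    (fun p => by split_ifs <;> omega)
  have h2 := sum_le (rcells φ) (fun p => sh (rkd φ p)) 5
    (fun p => by unfold sh; split_ifs <;> omega)
  have h3 := rcells_length φ
  have h4 : (rcells φ).length * 3 ≤ gB φ * 3 := Nat.mul_le_mul_right _ h3
  have h5 : (rcells φ).length * 5 ≤ gB φ * 5 := Nat.mul_le_mul_right _ h3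
  have h6 : ((rcells φ).map (fun p => if 6 ≤ rkd φ p then 2 else 3)).sum - 3 ≤ gB φ * 3 := by
    omega
  have h7 := Nat.mul_le_mul_right (rN φ + 3) h6
  omega

theorem rNu : UPoly rN :=
  UPoly.mul (UPoly.const 100) (UPoly.mul (UPoly.add (UPoly.add rK_upoly
    (UPoly.mul (UPoly.const 6) rm_upoly)) (UPoly.const 4)) (UPoly.mul (UPoly.const 5) rK_upoly))

theorem gBu : UPoly gB :=
  UPoly.mul (UPoly.add (UPoly.add rK_upoly (UPoly.mul (UPoly.const 6) rm_upoly)) (UPoly.const 4))
    (UPoly.mul (UPoly.const 5) rK_upoly)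

theorem cBu : UPoly cB :=
  UPoly.add (UPoly.add (UPoly.mul rNu (UPoly.add (UPoly.add rK_upoly
    (UPoly.mul (UPoly.const 6) rm_upoly)) (UPoly.const 4)))
    (UPoly.mul rNu (UPoly.mul (UPoly.const 5) rK_upoly))) (UPoly.const 2)

theorem rthru : UPoly rthr :=
  UPoly.of_le rthr_poly (UPoly.add (UPoly.mul (UPoly.mul gBu (UPoly.const 3))
    (UPoly.add rNu (UPoly.const 3))) (UPoly.mul (UPoly.const 3) (UPoly.mul gBu (UPoly.const 5))))
    rthr_le

theorem ptsN_poly : Poly ptsN := by
  have h := rkd_poly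
  have h1 := rcells_poly
  have h2 : Poly (fun q : Fm × (ℕ × ℕ) => offs (rkd q.1 q.2)) := offs_poly.comp h
  have h3 : Poly (fun q : (Fm × (ℕ × ℕ)) × (ℕ × ℕ) =>
      (rN q.1.1 * q.1.2.1 + q.2.1, rN q.1.1 * q.1.2.2 + q.2.2)) := by fun_prop
  have h4 : Poly (fun q : Fm × (ℕ × ℕ) => (offs (rkd q.1 q.2)).map
      (fun o => (rN q.1 * q.2.1 + o.1, rN q.1 * q.2.2 + o.2))) :=
    NPC.Poly.map (F := fun (q : Fm × (ℕ × ℕ)) o => (rN q.1 * q.2.1 + o.1, rN q.1 * q.2.2 + o.2))
      h2 h3
  exact Poly.flatMap (F := fun φ p => (offs (rkd φ p)).map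
    (fun o => (rN φ * p.1 + o.1, rN φ * p.2 + o.2))) h1 h4

/-- The reduction. -/
def instU (φ : Fm) : UInst :=
  ((ptsN φ).dedup.map (fun q => (List.replicate q.1 (), List.replicate q.2 ())),
    List.replicate (rthr φ) ())

end Pool.Agent.Y578.OL
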